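import Pool.Agent.Helper70.DK.Defs

/-! SUP: superadditivity and bounds of the entropies of the windows. -/

namespace Pool.Agent.Helper70.DK

open Finset

/-- floors of the points of a box -/
theorem sup_box {k : ℕ} (lo : Fin k → ℝ) (l : ℝ) (N : ℕ) (hl : l + 1 ≤ N) :
    ∃ F : Finset (Fin k → ℤ), F.card ≤ N ^ k ∧
      ∀ y : Fin k → ℝ, (∀ j, lo j ≤ y j ∧ y j ≤ lo j + l) → fl y ∈ F := by
  classical
  refine ⟨Fintype.piFinset (fun j => Finset.Ico ⌊lo j⌋ (⌊lo j⌋ + N)), ?_, ?_⟩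
  · rw [Fintype.card_piFinset]
    simp
  · intro y hy
    rw [Fintype.mem_piFinset]
    intro j
    rw [Finset.mem_Ico]
    obtain ⟨h1, h2⟩ := hy j
    refine ⟨Int.floor_le_floor h1, ?_⟩
    change ⌊y j⌋ < _
    rw [Int.floor_lt]
    push_cast
    have := Int.lt_floor_add_one (lo j)
    linarith

theorem sup_bij {ι : Type} [Fintype ι] (n1 n2 : ℕ) :
    Set.BijOn (fun p : (Fin n1 → ι) × (Fin n2 → ι) => Fin.append p.1 p.2)
      (((univ : Finset (Fin n1 → ι)) ×ˢ (univ : Finset (Fin n2 → ι)) :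
        Finset ((Fin n1 → ι) × (Fin n2 → ι))) : Set ((Fin n1 → ι) × (Fin n2 → ι)))
      ((univ : Finset (Fin (n1 + n2) → ι)) : Set (Fin (n1 + n2) → ι)) := by
  refine ⟨fun _ _ => by simp, ?_, ?_⟩
  · rintro ⟨u, v⟩ _ ⟨u', v'⟩ _ h
    have h' : Fin.append u v = Fin.append u' v' := h
    refine Prod.ext ?_ ?_
    · funext j
      have := congrFun h' (Fin.castAdd n2 j)
      simpa using this
    · funext j
      have := congrFun h' (Fin.natAdd n1 j)
      simpa using this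
  · intro w _
    refine ⟨(fun j => w (Fin.castAdd n2 j), fun j => w (Fin.natAdd n1 j)), by simp, ?_⟩
    exact Fin.append_castAdd_natAdd

theorem sup_mulVec {m k : ℕ} (π : Matrix (Fin k) (Fin m) ℝ) (a : ℝ) (x y z : Fin m → ℝ)
    (h : ∀ c, z c = a * x c + y c) (j : Fin k) :
    π.mulVec z j = a * π.mulVec x j + π.mulVec y j := by
  have : z = a • x + y := by
    funext c
    rw [h c]
    simp
  rw [this, Matrix.mulVec_add, Matrix.mulVec_smul]
  simp

theorem sup_log {m k : ℕ} (hk : k ≤ m) {X Y : ℝ} (hX : 1 ≤ X) (hXY : X ≤ Y) :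
    (k : ℝ) * Real.log X ≤ m * Real.log Y := by
  have h1 : 0 ≤ Real.log X := Real.log_nonneg hX
  have h2 : Real.log X ≤ Real.log Y := Real.log_le_log (by linarith) hXY
  have h3 : (k : ℝ) ≤ m := by exact_mod_cast hk
  have h4 : (0 : ℝ) ≤ k := by positivity
  nlinarith

/-- superadditivity for one frame -/
theorem sup_super (h1 : ST_E1) (h2 : ST_E2) (h5 : ST_E5) (hF : ST_FRM) (hP : ST_PB)
    {m B : ℕ} {R t : ℝ} {ι : Type} [Fintype ι] [Nonempty ι] (σ : Sys m ι) {k : ℕ}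
    (hB : 2 ≤ B) (hR : 0 ≤ R) (ht0 : 0 ≤ t) (ht1 : t ≤ 1) (hok : σ.Ok B R) (hk : k ≤ m)
    (π : Matrix (Fin k) (Fin m) ℝ) (i n1 n2 : ℕ) (hπ : Frame π) :
    σ.hh B t π i n1 + σ.hh B t π (i + n1) n2 - cc m B R ≤ σ.hh B t π i (n1 + n2) := by
  obtain ⟨h11, h12, h13, h14⟩ := h1
  obtain ⟨h21, h22, h23⟩ := h2
  obtain ⟨h51, h52, h53, h54, h55⟩ := h5
  obtain ⟨p1, p2, p3, p4, p5⟩ := hP m B R t ι σ hB hR ht0 ht1 hok
  obtain ⟨f1, f2, f3, f4, f5, f6, f7⟩ := hF
  have hBpos : (0 : ℝ) < (B : ℝ) ^ n2 := by positivity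
  have hB1 : (1 : ℝ) ≤ (B : ℝ) ^ n2 := one_le_pow₀ (by exact_mod_cast (by omega : 1 ≤ B))
  -- the data
  let S1 : Finset (Fin n1 → ι) := univ
  let S2 : Finset (Fin n2 → ι) := univ
  let A : (Fin n1 → ι) × (Fin n2 → ι) → Fin k → ℤ := fun x => fl (π.mulVec (σ.P B t i n1 x.1))
  let W : (Fin n1 → ι) × (Fin n2 → ι) → Fin k → ℤ :=
    fun x => fl (π.mulVec (σ.P B t i (n1 + n2) (Fin.append x.1 x.2)))
  have hS1 : S1.Nonempty := ⟨fun _ => Classical.arbitrary ι, Finset.mem_univ _⟩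
  have hS2 : S2.Nonempty := ⟨fun _ => Classical.arbitrary ι, Finset.mem_univ _⟩
  have eW : σ.hh B t π i (n1 + n2) = ent (S1 ×ˢ S2) W := by
    unfold Sys.hh
    exact (h55 _ _ _ (S1 ×ˢ S2) (univ : Finset (Fin (n1 + n2) → ι))
      (fun p => Fin.append p.1 p.2) (fun u => fl (π.mulVec (σ.P B t i (n1 + n2) u)))
      (sup_bij n1 n2)).symm
  have eA : σ.hh B t π i n1 = ent (S1 ×ˢ S2) A := by
    unfold Sys.hh
    exact (h51 _ _ _ S1 S2 (fun u => fl (π.mulVec (σ.P B t i n1 u))) hS2).symm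
  -- decomposition of the coordinates
  have hdec : ∀ (u : Fin n1 → ι) (v : Fin n2 → ι) (j : Fin k),
      π.mulVec (σ.P B t i (n1 + n2) (Fin.append u v)) j =
        (B : ℝ) ^ n2 * π.mulVec (σ.P B t i n1 u) j + π.mulVec (σ.P B t (i + n1) n2 v) j := by
    intro u v j
    exact sup_mulVec π _ _ _ _ (fun c => p1 i n1 n2 u v c) j
  have hX2 : ∀ (v : Fin n2 → ι) (j : Fin k),
      |π.mulVec (σ.P B t (i + n1) n2 v) j| ≤ m * ((R + B) * (B : ℝ) ^ n2) := by
    intro v j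
    exact f3 k m π hπ _ _ (fun c => p2 (i + n1) n2 v c) j
  -- the number of values of `A` given `W`
  set N : ℕ := ⌊2 * m * (R + B)⌋₊ + 4 with hN
  have hy0 : (0 : ℝ) ≤ 2 * m * (R + B) := by positivity
  have hN1 : 2 * m * (R + B) + 3 ≤ (N : ℝ) := by
    rw [hN]
    push_cast
    have := Nat.lt_floor_add_one (2 * m * (R + B))
    linarith
  have hN2 : (N : ℝ) ≤ 2 * m * (R + B) + 4 := by
    rw [hN]
    push_cast
    have := Nat.floor_le hy0
    linarith
  have hcA : cent (S1 ×ˢ S2) A W ≤ Real.log ((N ^ k : ℕ) : ℝ) := by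
    apply h21
    intro z
    obtain ⟨F, hFc, hFm⟩ := sup_box (k := k)
      (fun j => ((z j : ℝ) - m * ((R + B) * (B : ℝ) ^ n2)) / (B : ℝ) ^ n2)
      (2 * m * (R + B) + 1) N (by linarith)
    refine ⟨F, hFc, ?_⟩
    intro x _ hx
    apply hFm
    intro j
    have e1 : ⌊π.mulVec (σ.P B t i (n1 + n2) (Fin.append x.1 x.2)) j⌋ = z j := congrFun hx j
    rw [Int.floor_eq_iff] at e1
    obtain ⟨e2, e3⟩ := e1
    rw [hdec] at e2 e3
    have e4 := abs_le.1 (hX2 x.2 j)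
    constructor
    · rw [div_le_iff₀ hBpos]
      linarith [e4.1, e4.2]
    · have e5 : ((z j : ℝ) - m * ((R + B) * (B : ℝ) ^ n2)) / (B : ℝ) ^ n2 + (2 * m * (R + B) + 1) =
          ((z j : ℝ) + m * ((R + B) * (B : ℝ) ^ n2) + (B : ℝ) ^ n2) / (B : ℝ) ^ n2 := by
        field_simp
        ring
      rw [e5, le_div_iff₀ hBpos]
      linarith [e4.1, e4.2]
  -- submodularity
  have hsub : ent (S1 ×ˢ S2) A + cent (S1 ×ˢ S2) W (fun x => x.1) ≤
      ent (S1 ×ˢ S2) (fun x => (A x, W x)) := by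
    have a1 := h12 _ _ _ _ (S1 ×ˢ S2) W (fun x => x.1) A
    have a2 : ent (S1 ×ˢ S2) (fun x => (W x, x.1)) ≤ ent (S1 ×ˢ S2) (fun x => (W x, x.1, A x)) := by
      apply h11
      intro x _ y _ hxy
      simp only [Prod.mk.injEq] at hxy ⊢
      exact ⟨hxy.1, hxy.2.1⟩
    have a3 : ent (S1 ×ˢ S2) (fun x => (x.1, A x)) ≤ ent (S1 ×ˢ S2) (fun x => x.1) := by
      apply h11
      intro x _ y _ hxy
      have hxy' : x.1 = y.1 := hxy
      simp only [Prod.mk.injEq]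
      refine ⟨hxy', ?_⟩
      change fl (π.mulVec (σ.P B t i n1 x.1)) = fl (π.mulVec (σ.P B t i n1 y.1))
      rw [hxy']
    have a4 : ent (S1 ×ˢ S2) (fun x => (W x, A x)) ≤ ent (S1 ×ˢ S2) (fun x => (A x, W x)) := by
      apply h11
      intro x _ y _ hxy
      simp only [Prod.mk.injEq] at hxy ⊢
      exact ⟨hxy.2, hxy.1⟩
    unfold cent
    linarith
  -- the entropy of `W` given the first word
  have hfib : σ.hh B t π (i + n1) n2 - Real.log ((2 ^ k : ℕ) : ℝ) ≤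
      cent (S1 ×ˢ S2) W (fun x => x.1) := by
    have b1 : cent (S1 ×ˢ S2) W (fun x => x.1) =
        (∑ x ∈ S1, ent S2 (fun v => fl (π.mulVec (σ.P B t i (n1 + n2) (Fin.append x v))))) /
          (S1.card : ℝ) :=
      h54 _ _ _ S1 S2 (fun u v => fl (π.mulVec (σ.P B t i (n1 + n2) (Fin.append u v)))) hS1 hS2
    have hc : (0 : ℝ) < S1.card := by exact_mod_cast hS1.card_pos
    rw [b1, le_div_iff₀ hc]
    have b2 : ∀ u ∈ S1, σ.hh B t π (i + n1) n2 - Real.log ((2 ^ k : ℕ) : ℝ) ≤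
        ent S2 (fun v => fl (π.mulVec (σ.P B t i (n1 + n2) (Fin.append u v)))) := by
      intro u _
      have c1 : cent S2 (fun v => fl (π.mulVec (σ.P B t (i + n1) n2 v)))
          (fun v => fl (π.mulVec (σ.P B t i (n1 + n2) (Fin.append u v)))) ≤
          Real.log ((2 ^ k : ℕ) : ℝ) := by
        apply h21
        intro z
        obtain ⟨F, hFc, hFm⟩ := sup_box (k := k)
          (fun j => (z j : ℝ) - (B : ℝ) ^ n2 * π.mulVec (σ.P B t i n1 u) j) 1 2 (by norm_num)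
        refine ⟨F, hFc, ?_⟩
        intro v _ hv
        apply hFm
        intro j
        have e1 : ⌊π.mulVec (σ.P B t i (n1 + n2) (Fin.append u v)) j⌋ = z j := congrFun hv j
        rw [Int.floor_eq_iff] at e1
        obtain ⟨e2, e3⟩ := e1
        rw [hdec] at e2 e3
        constructor <;> linarith
      have c2 : ent S2 (fun v => fl (π.mulVec (σ.P B t (i + n1) n2 v))) ≤
          ent S2 (fun v => (fl (π.mulVec (σ.P B t (i + n1) n2 v)),
            fl (π.mulVec (σ.P B t i (n1 + n2) (Fin.append u v))))) := by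
        apply h11
        intro x _ y _ hxy
        simp only [Prod.mk.injEq] at hxy
        exact hxy.1
      unfold cent at c1
      have c3 : σ.hh B t π (i + n1) n2 = ent S2 (fun v => fl (π.mulVec (σ.P B t (i + n1) n2 v))) :=
        rfl
      linarith
    calc (σ.hh B t π (i + n1) n2 - Real.log ((2 ^ k : ℕ) : ℝ)) * (S1.card : ℝ)
        = ∑ u ∈ S1, (σ.hh B t π (i + n1) n2 - Real.log ((2 ^ k : ℕ) : ℝ)) := by
          rw [Finset.sum_const, nsmul_eq_mul, mul_comm]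
      _ ≤ _ := Finset.sum_le_sum b2
  -- conclusion
  have hlog : Real.log ((N ^ k : ℕ) : ℝ) + Real.log ((2 ^ k : ℕ) : ℝ) ≤ cc m B R := by
    have hN0 : (0 : ℝ) < N := by linarith
    have e1 : Real.log ((N ^ k : ℕ) : ℝ) + Real.log ((2 ^ k : ℕ) : ℝ) =
        k * Real.log (N * 2) := by
      push_cast
      rw [Real.log_pow, Real.log_pow, Real.log_mul hN0.ne' (by norm_num)]
      ring
    rw [e1]
    unfold cc
    apply sup_log hk
    · linarith
    · linarith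
  unfold cent at hcA
  rw [eW, eA]
  linarith

/-- upper bound for one frame -/
theorem sup_upper (h2 : ST_E2) (hF : ST_FRM) (hP : ST_PB)
    {m B : ℕ} {R t : ℝ} {ι : Type} [Fintype ι] [Nonempty ι] (σ : Sys m ι) {k : ℕ}
    (hB : 2 ≤ B) (hR : 0 ≤ R) (ht0 : 0 ≤ t) (ht1 : t ≤ 1) (hok : σ.Ok B R) (hk : k ≤ m)
    (π : Matrix (Fin k) (Fin m) ℝ) (i n : ℕ) (hπ : Frame π) :
    σ.hh B t π i n ≤ k * n * Real.log B + cc m B R := by
  obtain ⟨h21, h22, h23⟩ := h2
  obtain ⟨p1, p2, p3, p4, p5⟩ := hP m B R t ι σ hB hR ht0 ht1 hok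
  obtain ⟨f1, f2, f3, f4, f5, f6, f7⟩ := hF
  have hB0 : (0 : ℝ) < (B : ℝ) := by exact_mod_cast (by omega : 0 < B)
  have hB1 : (1 : ℝ) ≤ (B : ℝ) ^ n := one_le_pow₀ (by exact_mod_cast (by omega : 1 ≤ B))
  set X : ℝ := m * ((R + B) * (B : ℝ) ^ n) with hX
  have hX0 : 0 ≤ X := by positivity
  set N : ℕ := ⌊2 * X⌋₊ + 2 with hN
  have hN1 : 2 * X + 1 ≤ (N : ℝ) := by
    rw [hN]
    push_cast
    have := Nat.lt_floor_add_one (2 * X)
    linarith
  have hN2 : (N : ℝ) ≤ 2 * X + 2 := by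
    rw [hN]
    push_cast
    have := Nat.floor_le (by positivity : 0 ≤ 2 * X)
    linarith
  obtain ⟨F, hFc, hFm⟩ := sup_box (k := k) (fun _ => -X) (2 * X) N hN1
  have h3 : σ.hh B t π i n ≤ Real.log F.card := by
    apply h23
    intro u _
    apply hFm
    intro j
    have := abs_le.1 (f3 k m π hπ _ _ (fun c => p2 i n u c) j)
    constructor <;> linarith [this.1, this.2]
  have hne : F.Nonempty := by
    refine ⟨_, hFm (fun _ => 0) (fun j => ⟨by linarith, by linarith⟩)⟩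
  have h4 : Real.log F.card ≤ Real.log ((N ^ k : ℕ) : ℝ) := by
    apply Real.log_le_log
    · exact_mod_cast hne.card_pos
    · exact_mod_cast hFc
  have h5 : Real.log ((N ^ k : ℕ) : ℝ) = k * Real.log N := by
    push_cast
    rw [Real.log_pow]
  have h6 : (N : ℝ) ≤ (B : ℝ) ^ n * (2 * m * (R + B) + 2) := by
    have : 2 * X + 2 ≤ (B : ℝ) ^ n * (2 * m * (R + B) + 2) := by
      rw [hX]; nlinarith
    linarith
  have hY : (1 : ℝ) ≤ 2 * m * (R + B) + 2 := by
    have : (0 : ℝ) ≤ 2 * m * (R + B) := by positivity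
    linarith
  have h7 : Real.log N ≤ n * Real.log B + Real.log (2 * m * (R + B) + 2) := by
    calc Real.log N ≤ Real.log ((B : ℝ) ^ n * (2 * m * (R + B) + 2)) :=
          Real.log_le_log (by linarith) h6
      _ = _ := by rw [Real.log_mul (by positivity) (by linarith), Real.log_pow]
  have h8 : (k : ℝ) * Real.log (2 * m * (R + B) + 2) ≤ cc m B R := by
    unfold cc
    apply sup_log hk hY
    have : (0 : ℝ) ≤ 2 * m * (R + B) := by positivity
    linarith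
  have h9 : (0 : ℝ) ≤ k := by positivity
  calc σ.hh B t π i n ≤ k * Real.log N := by linarith
    _ ≤ k * (n * Real.log B + Real.log (2 * m * (R + B) + 2)) := mul_le_mul_of_nonneg_left h7 h9
    _ = k * n * Real.log B + k * Real.log (2 * m * (R + B) + 2) := by ring
    _ ≤ _ := by linarith

theorem st_SUP (h1 : ST_E1) (h2 : ST_E2) (h5 : ST_E5) (hF : ST_FRM) (hP : ST_PB) : ST_SUP := by
  intro m B R t ι _ _ σ k hm hB hR ht0 ht1 hok hk
  have hne : Nonempty {π : Matrix (Fin k) (Fin m) ℝ // Frame π} := by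
    obtain ⟨π, hπ⟩ := hF.1 k m hk
    exact ⟨⟨π, hπ⟩⟩
  have hnn : ∀ (π : Matrix (Fin k) (Fin m) ℝ) (i n : ℕ), 0 ≤ σ.hh B t π i n :=
    fun π i n => h1.2.2.1 _ _ _ _
  have hbdd : ∀ i n : ℕ, BddBelow (Set.range
      (fun π : {π : Matrix (Fin k) (Fin m) ℝ // Frame π} => σ.hh B t π.1 i n)) := by
    intro i n
    refine ⟨0, ?_⟩
    rintro x ⟨π, rfl⟩
    exact hnn π.1 i n
  have hsup := fun (π : Matrix (Fin k) (Fin m) ℝ) (i n1 n2 : ℕ) (hπ : Frame π) =>
    sup_super h1 h2 h5 hF hP σ hB hR ht0 ht1 hok hk π i n1 n2 hπ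
  have hup := fun (π : Matrix (Fin k) (Fin m) ℝ) (i n : ℕ) (hπ : Frame π) =>
    sup_upper h2 hF hP σ hB hR ht0 ht1 hok hk π i n hπ
  have hle : ∀ (π : Matrix (Fin k) (Fin m) ℝ) (i n : ℕ), Frame π →
      σ.GG B t k i n ≤ σ.hh B t π i n := by
    intro π i n hπ
    exact ciInf_le (hbdd i n) (⟨π, hπ⟩ : {π : Matrix (Fin k) (Fin m) ℝ // Frame π})
  refine ⟨hsup, fun π i n hπ => ⟨hnn π i n, hup π i n hπ⟩, ?_, ?_, hle, ?_⟩
  · intro i n1 n2
    apply le_ciInf
    intro π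
    have a1 := hle π.1 i n1 π.2
    have a2 := hle π.1 (i + n1) n2 π.2
    have a3 := hsup π.1 i n1 n2 π.2
    linarith
  · intro i n
    refine ⟨le_ciInf fun π => hnn π.1 i n, ?_⟩
    obtain ⟨π⟩ := hne
    exact (hle π.1 i n π.2).trans (hup π.1 i n π.2)
  · intro i n
    have hlt : (⨅ π : {π : Matrix (Fin k) (Fin m) ℝ // Frame π}, σ.hh B t π.1 i n) <
        σ.GG B t k i n + 1 := by
      change σ.GG B t k i n < _
      linarith
    obtain ⟨π, hπ⟩ := exists_lt_of_ciInf_lt hlt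
    exact ⟨π.1, π.2, hπ.le⟩

end Pool.Agent.Helper70.DK
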